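import Pool.Agent.Run7.h469.TR.Pede373

/-!
# The modular Schanuel conjecture with derivatives in the Farey intervals around a real number

We call a tuple `(t_1, …, t_k)` of nonzero integers good (not exceptional) if for ALL points `z_1, …, z_k` of the upper half-plane
with `j(z_i) = t_i` there is no nontrivial relation of degree at most `δ`, whatever the height of its coefficients, between
`2 π i, w_1, …, w_q` and the `3 k` numbers `z_i`, `j'(z_i)`, `j''(z_i)`, over any number field of degree at most `δ`.

Let `k = 2`. We prove that for all real `α > 0` outside a set of Hausdorff dimension at most `1 - η`, and for almost all `α` with respect to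
every measure of larger dimension, ALL but finitely many Farey intervals `[q / s, p / r]`, `p s - q r = 1`, around `α` have the
following property: for `(u, v)` one of the four pairs `(p, q)`, `(r, s)`, `(p, r)`, `(q, s)` ALL pairs `t = M (u, v) + b` of
nonzero integers are good, where `M` is an integral `2 × 2` matrix with `det M ≠ 0`, `b` an integral vector and the entries of
`M` and `b` are at most `max(u, v)^η`, `η = 1 / (δ + 2)^C`. The number `C` depends only on `q`. For almost all real `α` this is true for ALL degrees `δ` at the same time. The Farey intervals around `α` are those on the path to `α` in the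
Stern-Brocot tree.

The starting theorem `GrowingDegreeTuples` of this problem bounds the number of pairs of integers up to `U` which are not good by
`C U^(2 - 1 / (δ + 2)^C)`. The starting theorem about approximations of this problem treats integer vectors for which a linear form is near an integer. A Farey interval around `α` can be much longer than `1 / r^2`, and `r / s` is not near a number determined by
`α`. The chains of intervals with a common end are treated as a whole.
-/

set_option autoImplicit false

namespace Pool.Agent.Results.MP_ede373_nt.FareyIntervals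

open Finset MeasureTheory
open Run7.h469.Ab (badIntervals)
open Run7.h469.Vp (Combinations)
open Run7.h469.TR.Pede373 (few)
open Pool.Agent.Results.MP_ede373_nt.GrowingDegreeTuples (Exceptional)

/-- **The modular Schanuel conjecture with derivatives in Farey intervals.** There is `C` such that (1) for all `δ` and all `w` in `ℂ^q`,
`η = 1 / (δ + 2)^C`, for all `α > 0` outside a set of Hausdorff dimension at most `1 - η`, and for almost all `α > 0` for all measures
of a dimension `m > 1 - η`, there are only finitely many `q / s ≤ α ≤ p / r`, `p s - q r = 1`, such that for one of the pairs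
`(u, v) = (p, q)`, `(r, s)`, `(p, r)`, `(q, s)` some pair `M (u, v) + b` of nonzero integers, `det M ≠ 0`, with entries of `M` and
`b` at most `max(u, v)^η`, is not good; (2) for all `w`, for almost all `α > 0`, this is true for ALL `δ`. -/
theorem result (q : ℕ) : ∃ C : ℕ,
    (∀ (δ : ℕ) (w : Fin q → ℂ),
      (∃ E : Set ℝ, dimH E ≤ ENNReal.ofReal (1 - 1 / ((δ : ℝ) + 2) ^ C) ∧
        ∀ α : ℝ, 0 < α → α ∉ E → (badIntervals (Combinations (1 / ((δ : ℝ) + 2) ^ C) (fun t => ¬ Exceptional δ w t)) α).Finite) ∧
      ∀ (μ : Measure ℝ) (C₁ m : ℝ), 1 - 1 / ((δ : ℝ) + 2) ^ C < m →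
        (∀ (x ρ : ℝ), 0 < ρ → μ (Metric.closedBall x ρ) ≤ ENNReal.ofReal (C₁ * ρ ^ m)) →
        ∀ᵐ α ∂μ, 0 < α → (badIntervals (Combinations (1 / ((δ : ℝ) + 2) ^ C) (fun t => ¬ Exceptional δ w t)) α).Finite) ∧
    ∀ w : Fin q → ℂ, ∀ᵐ α : ℝ, ∀ δ : ℕ,
      0 < α → (badIntervals (Combinations (1 / ((δ : ℝ) + 2) ^ C) (fun t => ¬ Exceptional δ w t)) α).Finite := by
  obtain ⟨C₀, h⟩ := few 2 q
  obtain ⟨C, hC⟩ := Run7.h469.Vp.farey_eff C₀
  have key : ∀ (δ : ℕ) (w : Fin q → ℂ),
      (∃ E : Set ℝ, dimH E ≤ ENNReal.ofReal (1 - 1 / ((δ : ℝ) + 2) ^ C) ∧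
        ∀ α : ℝ, 0 < α → α ∉ E → (badIntervals (Combinations (1 / ((δ : ℝ) + 2) ^ C) (fun t => ¬ Exceptional δ w t)) α).Finite) ∧
      ∀ (μ : Measure ℝ) (C₁ m : ℝ), 1 - 1 / ((δ : ℝ) + 2) ^ C < m →
        (∀ (x ρ : ℝ), 0 < ρ → μ (Metric.closedBall x ρ) ≤ ENNReal.ofReal (C₁ * ρ ^ m)) →
        ∀ᵐ α ∂μ, 0 < α → (badIntervals (Combinations (1 / ((δ : ℝ) + 2) ^ C) (fun t => ¬ Exceptional δ w t)) α).Finite := by
    intro δ w
    refine hC δ _ ?_
    have h1 := h δ w
    rw [Nat.cast_ofNat] at h1
    exact h1
  refine ⟨C, key, fun w => ?_⟩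
  rw [ae_all_iff]
  intro δ
  have hpos := Run7.h469.Vp.sav_pos C δ
  unfold Run7.h469.Vp.sav at hpos
  exact Run7.h469.Vp.ae_of (by linarith) (key δ w).2

end Pool.Agent.Results.MP_ede373_nt.FareyIntervals
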